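import Pool.Agent.U29.CY.Stm

set_option autoImplicit false

/-! Project CY, package SUM -/

namespace Pool.Agent.U60.CY

open Finset MeasureTheory Filter Pool.Agent.U762.RP Pool.Agent.U29.CY

theorem summable_aux : Summable fun x : ℤ => (2 + |(x : ℝ)|) ^ (-2 : ℝ) := by
  have h1 : Summable fun n : ℕ => 1 / ((n : ℝ) + 1) ^ 2 := by
    have h := (summable_nat_add_iff 1).2 (Real.summable_one_div_nat_pow.2 (by norm_num : 1 < 2))
    refine h.congr fun n => ?_
    push_cast
    rfl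
  have h2 : ∀ n : ℕ, (2 + |((n : ℤ) : ℝ)|) ^ (-2 : ℝ) ≤ 1 / ((n : ℝ) + 1) ^ 2 := by
    intro n
    have h0 : (0 : ℝ) ≤ n := Nat.cast_nonneg n
    rw [Real.rpow_neg (by positivity), show (2 : ℝ) = ((2 : ℕ) : ℝ) by norm_num, Real.rpow_natCast,
      ← one_div]
    apply one_div_le_one_div_of_le (by positivity)
    have : |((n : ℤ) : ℝ)| = n := by simp
    rw [this]
    push_cast
    nlinarith
  apply Summable.of_nat_of_neg
  · exact Summable.of_nonneg_of_le (fun n => by positivity) h2 h1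
  · refine Summable.of_nonneg_of_le (fun n => by positivity) (fun n => ?_) h1
    have h3 := h2 n
    simpa using h3

theorem t_SUM : S_SUM := by
  intro A hA
  set c : ℝ := ∑' x : ℤ, (2 + |(x : ℝ)|) ^ (-2 : ℝ) with hc
  have hcpos : 0 < c := by
    refine summable_aux.tsum_pos (fun x => by positivity) 0 ?_
    positivity
  refine ⟨c, hcpos, fun N hN => ?_⟩
  have hN0 : 0 < N := by linarith
  have key : ∀ x : ℤ, (if N ≤ |(x : ℝ)| then ENNReal.ofReal ((2 + |(x : ℝ)|) ^ (-(A + 2))) else 0) ≤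
      ENNReal.ofReal (N ^ (-A) * (2 + |(x : ℝ)|) ^ (-2 : ℝ)) := by
    intro x
    split_ifs with h
    · apply ENNReal.ofReal_le_ofReal
      have hp : 0 < 2 + |(x : ℝ)| := by positivity
      rw [show -(A + 2) = -A + -2 by ring, Real.rpow_add hp]
      apply mul_le_mul_of_nonneg_right _ (by positivity)
      exact Real.rpow_le_rpow_of_nonpos hN0 (by linarith) (by linarith)
    · exact zero_le
  calc ∑' x : ℤ, (if N ≤ |(x : ℝ)| then ENNReal.ofReal ((2 + |(x : ℝ)|) ^ (-(A + 2))) else 0)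
      ≤ ∑' x : ℤ, ENNReal.ofReal (N ^ (-A) * (2 + |(x : ℝ)|) ^ (-2 : ℝ)) := ENNReal.tsum_le_tsum key
    _ = ENNReal.ofReal (∑' x : ℤ, N ^ (-A) * (2 + |(x : ℝ)|) ^ (-2 : ℝ)) := by
        rw [ENNReal.ofReal_tsum_of_nonneg (fun x => by positivity) (summable_aux.mul_left _)]
    _ = ENNReal.ofReal (c * N ^ (-A)) := by
        rw [tsum_mul_left, mul_comm]

theorem t_BDD : S_BDD := by
  intro B μ _ h
  rw [ae_all_iff]
  intro x
  have hmp := measurePreserving_eval_infinitePi (fun _ : ℤ => μ) x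
  have h1 : ∀ᵐ u ∂μ, |u| ≤ (B : ℤ) := by
    rw [ae_iff]
    convert h using 2
    ext u
    simp
  exact hmp.quasiMeasurePreserving.ae h1

end Pool.Agent.U60.CY
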